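import Mathlib
import Pool.Agent.W221.Sz.Stm

/-!
# Pairs attached to a twist, for a general exponent function
-/

set_option autoImplicit false

namespace Pool.Agent.W101.Sz

open Finset Pool.Agent.W221.Sz Pool.Agent.H785R2.ABC

/-- the inequality between exponents -/
lemma num {F : ℝ → ℝ} (hF : FOK F) {lam u η μ y x b L : ℝ} (h0 : 0 < lam) (hu : 0 < u)
    (hη : 0 < η) (hη1 : η ≤ 1) (hμ : 0 ≤ μ) (hy : 0 ≤ y) (hx : 0 ≤ x) (hb : 0 ≤ b) (hL : 0 ≤ L)
    (h1 : μ + y ≤ x + L)
    (h2 : lam ≤ 1 → (u - η) * y + (2 - lam) * μ ≤ b + lam * y)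
    (h3 : 1 ≤ lam → (u - η) * y + μ ≤ b + y + (lam - 1) * x) :
    μ + F u * y ≤ F lam * x + (2 + |F lam / (lam - 1)|) * η * x
      + (3 * L + 2 * b + |F lam / (lam - 1)| * (b + L)) := by
  set ρ := |F lam / (lam - 1)| with hρ
  have hρ0 : 0 ≤ ρ := abs_nonneg _
  have hyx : y ≤ x + L := by linarith
  have hηy : η * y ≤ η * x + L := by nlinarith
  have hηx : 0 ≤ η * x := by positivity
  have hρηx : 0 ≤ ρ * (η * x) := by positivity
  have hρb : 0 ≤ ρ * (b + L) := by positivity
  have hT : (2 + ρ) * η * x = 2 * (η * x) + ρ * (η * x) := by ring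
  have hF2 : F 2 = 1 := by rw [hF.two 2 le_rfl]; norm_num
  -- the combination used when `u < 2`
  have hcomb : u < 2 → 0 ≤ (1 - F u) / (2 - u) ∧ (1 - F u) / (2 - u) ≤ 1 := by
    intro hu2
    have hd : 0 < 2 - u := by linarith
    refine ⟨div_nonneg ?_ hd.le, ?_⟩
    · have := hF.mono u 2 hu hu2.le
      linarith
    · rw [div_le_one hd]
      have := hF.ge u hu
      linarith
  rcases le_or_gt lam 1 with hl | hl
  · -- Case `lam ≤ 1`
    have h2' := h2 hl
    have hFl1 : F lam ≤ 1 := by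
      have := hF.mono lam 2 h0 (by linarith)
      linarith
    have hFl0 := hF.nonneg lam h0
    set h := (1 - F lam) / (2 - lam) with hh
    have hd : 0 < 2 - lam := by linarith
    have hh0 : 0 ≤ h := div_nonneg (by linarith) hd.le
    have hh1 : h ≤ 1 := by rw [hh, div_le_one hd]; linarith
    have hhe : h * (2 - lam) = 1 - F lam := by rw [hh]; field_simp
    have e1 : (1 - F lam) * μ ≤ b + h * (lam - u) * y + η * y := by
      have e2 : h * ((2 - lam) * μ) ≤ h * (b + (lam - u + η) * y) :=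
        mul_le_mul_of_nonneg_left (by linarith) hh0
      have e3 : h * b ≤ b := mul_le_of_le_one_left hb hh1
      have e4 : h * (η * y) ≤ η * y := mul_le_of_le_one_left (by positivity) hh1
      have e5 : h * (b + (lam - u + η) * y) = h * b + h * (lam - u) * y + h * (η * y) := by ring
      rw [← hhe, mul_assoc]
      rw [e5] at e2
      linarith
    have e5 : F lam * (μ + y) ≤ F lam * x + L := by
      have a1 := mul_le_mul_of_nonneg_left h1 hFl0
      have a2 : F lam * L ≤ L := mul_le_of_le_one_left hL hFl1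
      have a3 : F lam * (x + L) = F lam * x + F lam * L := by ring
      linarith
    have e6 : (h * (lam - u) + F u - F lam) * y ≤ b + η * y := by
      rcases le_or_gt u lam with hul | hul
      · have e7 := hF.h u lam hu hul (by linarith)
        have e8 : h * (2 - u) ≤ 1 - F u := by
          rw [hh, div_mul_eq_mul_div, div_le_iff₀ hd]
          exact e7
        have e9 : h * (lam - u) + F u - F lam ≤ 0 := by nlinarith
        have a1 : 0 ≤ η * y := by positivity
        have a2 : (h * (lam - u) + F u - F lam) * y ≤ 0 := mul_nonpos_of_nonpos_of_nonneg e9 hy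
        linarith
      · have e7 := hF.lip lam u h0 hul.le
        have a3 : h * (lam - u) ≤ 0 := mul_nonpos_of_nonneg_of_nonpos hh0 (by linarith)
        have e8 : h * (lam - u) + F u - F lam ≤ u - lam := by linarith
        have e9 : (u - lam) * y ≤ b + η * y := by
          have : 0 ≤ (2 - lam) * μ := by positivity
          linarith
        exact (mul_le_mul_of_nonneg_right e8 hy).trans e9
    have id1 : μ + F u * y = F lam * (μ + y) + (1 - F lam) * μ + (F u - F lam) * y := by ring
    have id2 : (h * (lam - u) + F u - F lam) * y = h * (lam - u) * y + (F u - F lam) * y := by ring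
    rw [id1, hT]
    linarith
  · have h3' := h3 hl.le
    -- the combination
    have hc : u < 2 → 1 - (1 - F u) / (2 - u) * (2 - lam) ≤ F lam →
        μ + F u * y ≤ F lam * x + L + b + η * y := by
      intro hu2 hle
      obtain ⟨hb0, hb1⟩ := hcomb hu2
      set β := (1 - F u) / (2 - u) with hβ
      have hd : 0 < 2 - u := by linarith
      have hβe : β * (2 - u) = 1 - F u := by rw [hβ]; field_simp
      have e1 : (1 - β) * (μ + y) ≤ (1 - β) * (x + L) :=
        mul_le_mul_of_nonneg_left h1 (by linarith)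
      have e2 : β * (μ + (u - 1) * y) ≤ β * (b + η * y + (lam - 1) * x) :=
        mul_le_mul_of_nonneg_left (by linarith) hb0
      have e3 : (1 - β) * L ≤ L := mul_le_of_le_one_left hL (by linarith)
      have e4 : β * (b + η * y) ≤ b + η * y :=
        mul_le_of_le_one_left (by positivity) hb1
      have e5 : (1 - β * (2 - lam)) * x ≤ F lam * x := mul_le_mul_of_nonneg_right hle hx
      have e6 : F u = 1 - β * (2 - u) := by rw [hβe]; ring
      have id1 : μ + (1 - β * (2 - u)) * y = (1 - β) * (μ + y) + β * (μ + (u - 1) * y) := by ring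
      have id2 : (1 - β) * (x + L) + β * (b + η * y + (lam - 1) * x)
        = (1 - β * (2 - lam)) * x + (1 - β) * L + β * (b + η * y) := by ring
      rw [e6, id1]
      linarith
    rcases lt_or_ge lam 2 with hl2 | hl2
    · -- Case `1 < lam < 2`
      rcases le_or_gt u lam with hul | hul
      · have hu2 : u < 2 := by linarith
        have hd : 0 < 2 - u := by linarith
        have e7 := hF.h u lam hu hul hl2
        have := hc hu2 (by
          have : 1 - F lam ≤ (1 - F u) / (2 - u) * (2 - lam) := by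
            rw [div_mul_eq_mul_div, le_div_iff₀ hd]
            exact e7
          linarith)
        linarith
      · have hd : 0 < lam - 1 := by linarith
        have hFl := hF.ge lam h0
        have hFp : 0 < F lam := by linarith
        have hρe : ρ * (lam - 1) = F lam := by
          rw [hρ, abs_of_nonneg (by positivity)]; field_simp
        have hρ1 : 1 ≤ ρ := by
          by_contra hcon
          nlinarith
        have e7 := hF.g lam u hl hul.le
        have e8 : F u ≤ ρ * (u - 1) := by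
          rw [← hρe] at e7
          have : F u * (lam - 1) ≤ (ρ * (u - 1)) * (lam - 1) := by linarith
          exact le_of_mul_le_mul_right this hd
        have e9 : μ + F u * y ≤ ρ * (μ + (u - 1) * y) := by
          have a1 : F u * y ≤ ρ * (u - 1) * y := mul_le_mul_of_nonneg_right e8 hy
          have a2 : 1 * μ ≤ ρ * μ := mul_le_mul_of_nonneg_right hρ1 hμ
          have a3 : ρ * (μ + (u - 1) * y) = ρ * μ + ρ * (u - 1) * y := by ring
          rw [a3]
          linarith
        have e10 : ρ * (μ + (u - 1) * y) ≤ ρ * (b + η * y + (lam - 1) * x) :=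
          mul_le_mul_of_nonneg_left (by linarith) hρ0
        have e11 : ρ * (η * y) ≤ ρ * (η * x + L) := mul_le_mul_of_nonneg_left hηy hρ0
        have e12 : ρ * ((lam - 1) * x) = F lam * x := by rw [← hρe]; ring
        have e13 : ρ * (b + η * y + (lam - 1) * x) = ρ * b + ρ * (η * y) + ρ * ((lam - 1) * x) := by
          ring
        have e14 : ρ * (η * x + L) = ρ * (η * x) + ρ * L := by ring
        have e15 : ρ * (b + L) = ρ * b + ρ * L := by ring
        rw [e13, e12] at e10
        rw [e14] at e11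
        rw [hT, e15]
        linarith
    · -- Case `2 ≤ lam`
      have hFl := hF.two lam hl2
      rcases lt_or_ge u 2 with hu2 | hu2
      · have := hc hu2 (by
          obtain ⟨hb0, hb1⟩ := hcomb hu2
          rw [hFl]
          nlinarith)
        rw [hT]
        linarith
      · rw [hF.two u hu2, hFl, hT]
        have e1 : (u - η) * y + μ = μ + (u - 1) * y + y - η * y := by ring
        linarith

lemma rad_pos' (n : ℕ) : 0 < rad n := by
  unfold rad
  exact Finset.prod_pos fun p hp => (Nat.prime_of_mem_primeFactors hp).pos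

lemma rad_le' {n : ℕ} (hn : n ≠ 0) : rad n ≤ n :=
  Nat.le_of_dvd (Nat.pos_of_ne_zero hn) (Nat.prod_primeFactors_dvd n)

/-- the count in terms of pairs -/
lemma pairs_count {lam θ C : ℝ} {ε : ℝ} (h : ∀ X : ℕ, 1 ≤ X →
    ({t : ℕ × ℕ × ℕ | IsABCTriple t.1 t.2.1 t.2.2 ∧ t.2.2 ≤ X ∧
      (rad (t.1 * t.2.1 * t.2.2) : ℝ) ≤ (t.2.2 : ℝ) ^ lam}.ncard : ℝ) ≤ C * (X : ℝ) ^ (θ + ε))
    {Y : ℕ} (hY : 1 ≤ Y) {S : Finset (ℕ × ℕ)}
    (hS : ∀ t ∈ S, 0 < t.1 ∧ 0 < t.2 ∧ Nat.Coprime t.1 t.2 ∧ t.1 + t.2 ≤ Y ∧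
      (rad (t.1 * t.2 * (t.1 + t.2)) : ℝ) ≤ ((t.1 + t.2 : ℕ) : ℝ) ^ lam) :
    (S.card : ℝ) ≤ C * (Y : ℝ) ^ (θ + ε) := by
  refine le_trans ?_ (h Y hY)
  have hinj : Set.InjOn (fun t : ℕ × ℕ => (t.1, t.2, t.1 + t.2)) (S : Set (ℕ × ℕ)) := by
    rintro ⟨a, b⟩ _ ⟨a', b'⟩ _ he
    simp only [Prod.mk.injEq] at he
    exact Prod.ext he.1 he.2.1
  have hfin : {t : ℕ × ℕ × ℕ | IsABCTriple t.1 t.2.1 t.2.2 ∧ t.2.2 ≤ Y ∧
      (rad (t.1 * t.2.1 * t.2.2) : ℝ) ≤ (t.2.2 : ℝ) ^ lam}.Finite := by
    refine (Set.finite_Iic ((Y, Y, Y) : ℕ × ℕ × ℕ)).subset ?_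
    rintro ⟨a, b, c⟩ ⟨⟨h1, h2, h3, h4, -⟩, h5, -⟩
    simp only at h4 h5
    exact ⟨by simp only; omega, by simp only; omega, by simp only; omega⟩
  have h1 : (S.card : ℕ) ≤ {t : ℕ × ℕ × ℕ | IsABCTriple t.1 t.2.1 t.2.2 ∧ t.2.2 ≤ Y ∧
      (rad (t.1 * t.2.1 * t.2.2) : ℝ) ≤ (t.2.2 : ℝ) ^ lam}.ncard := by
    rw [← card_image_of_injOn hinj, ← Set.ncard_coe_finset]
    refine Set.ncard_le_ncard ?_ hfin
    intro x hx
    rw [coe_image] at hx
    obtain ⟨t, ht, rfl⟩ := hx
    obtain ⟨h1, h2, h3, h4, h5⟩ := hS t ht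
    refine ⟨⟨h1, h2, by simp only; omega, rfl, h3, ?_, ?_⟩, h4, h5⟩
    · show Nat.Coprime t.1 (t.1 + t.2)
      simpa using h3
    · show Nat.Coprime t.2 (t.1 + t.2)
      simpa using h3.symm
  exact_mod_cast h1

theorem pairs_of (F : ℝ → ℝ) (hF : FOK F) : StmtPairs F := by
  classical
  intro B lam ε hB h0 hl3 hε
  set ρ := |F lam / (lam - 1)| with hρ
  have hρ0 : 0 ≤ ρ := abs_nonneg _
  set η : ℝ := min 1 (ε / (3 + ρ)) with hη
  have hη0 : 0 < η := lt_min one_pos (by positivity)
  have hη1 : η ≤ 1 := min_le_left _ _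
  have hηε : (3 + ρ) * η ≤ ε := by
    have : η ≤ ε / (3 + ρ) := min_le_right _ _
    rwa [le_div_iff₀ (by positivity), mul_comm] at this
  set N : ℕ := ⌈3 / η⌉₊ + 1 with hN
  have hcnt : ∀ k : ℕ, ∃ C : ℝ, ∀ X : ℕ, 1 ≤ X →
    ({t : ℕ × ℕ × ℕ | IsABCTriple t.1 t.2.1 t.2.2 ∧ t.2.2 ≤ X ∧
      (rad (t.1 * t.2.1 * t.2.2) : ℝ) ≤ (t.2.2 : ℝ) ^ (((k : ℝ) + 1) * η)}.ncard : ℝ)
        ≤ C * (X : ℝ) ^ (F (((k : ℝ) + 1) * η) + η) := fun k =>
    hF.cnt _ (by positivity) η hη0
  choose Cf hCf using hcnt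
  have hlogB : 0 ≤ Real.log B := Real.log_nonneg hB
  have hL2 : 0 ≤ Real.log 2 := Real.log_nonneg (by norm_num)
  set K : ℝ := 3 * Real.log 2 + 2 * Real.log B + ρ * (Real.log B + Real.log 2) with hK
  set C0 : ℝ := ∑ k ∈ range N, |Cf k| with hC0
  have hC0nn : 0 ≤ C0 := sum_nonneg fun k _ => abs_nonneg _
  refine ⟨(C0 + 1) * Real.exp (K + Real.log 2), by positivity, ?_⟩
  intro X hX m hm S hS
  have hX1 : (1 : ℝ) ≤ X := by exact_mod_cast hX
  have hX0 : (0 : ℝ) < X := by linarith
  have hm1 : (1 : ℝ) ≤ m := by exact_mod_cast hm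
  have hm0 : (0 : ℝ) < m := by linarith
  set R : ℕ × ℕ → ℝ := fun t => (rad (t.1 * t.2 * (t.1 + t.2)) : ℝ) with hR
  set c : ℕ × ℕ → ℝ := fun t => ((t.1 + t.2 : ℕ) : ℝ) with hc
  set Sk : ℕ → Finset (ℕ × ℕ) := fun k =>
    S.filter fun t => c t ^ ((k : ℝ) * η) ≤ R t ∧ R t ≤ c t ^ (((k : ℝ) + 1) * η) with hSk
  have hcov : S ⊆ (range N).biUnion Sk := by
    intro t ht
    obtain ⟨q1, q2, -⟩ := hS t ht
    have hc1 : 1 ≤ c t := by
      simp only [hc]
      exact_mod_cast (by omega : 1 ≤ t.1 + t.2)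
    have hR1 : 1 ≤ R t := by
      simp only [hR]
      exact_mod_cast rad_pos' _
    have hex : ∃ k : ℕ, R t ≤ c t ^ (((k : ℝ) + 1) * η) := ⟨⌈3 / η⌉₊, by
      have e1 : R t ≤ c t ^ (3 : ℝ) := by
        have : rad (t.1 * t.2 * (t.1 + t.2)) ≤ (t.1 + t.2) ^ 3 := by
          refine (rad_le' (by positivity)).trans ?_
          calc t.1 * t.2 * (t.1 + t.2) ≤ (t.1 + t.2) * (t.1 + t.2) * (t.1 + t.2) := by
                gcongr <;> omega
            _ = _ := by ring
        have h3 : (3 : ℝ) = ((3 : ℕ) : ℝ) := by norm_num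
        rw [h3, Real.rpow_natCast]
        simp only [hR, hc]
        exact_mod_cast this
      refine e1.trans (Real.rpow_le_rpow_of_exponent_le hc1 ?_)
      have e2 : 3 / η ≤ (⌈3 / η⌉₊ : ℝ) := Nat.le_ceil _
      rw [div_le_iff₀ hη0] at e2
      linarith⟩
    set k := Nat.find hex with hk
    have hk1 := Nat.find_spec hex
    have hkN : k < N := by
      have : k ≤ ⌈3 / η⌉₊ := by
        refine Nat.find_min' hex ?_
        have e1 : R t ≤ c t ^ (3 : ℝ) := by
          have : rad (t.1 * t.2 * (t.1 + t.2)) ≤ (t.1 + t.2) ^ 3 := by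
            refine (rad_le' (by positivity)).trans ?_
            calc t.1 * t.2 * (t.1 + t.2) ≤ (t.1 + t.2) * (t.1 + t.2) * (t.1 + t.2) := by
                  gcongr <;> omega
              _ = _ := by ring
          have h3 : (3 : ℝ) = ((3 : ℕ) : ℝ) := by norm_num
          rw [h3, Real.rpow_natCast]
          simp only [hR, hc]
          exact_mod_cast this
        refine e1.trans (Real.rpow_le_rpow_of_exponent_le hc1 ?_)
        have e2 : 3 / η ≤ (⌈3 / η⌉₊ : ℝ) := Nat.le_ceil _
        rw [div_le_iff₀ hη0] at e2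
        linarith
      omega
    rw [mem_biUnion]
    refine ⟨k, mem_range.2 hkN, ?_⟩
    rw [hSk]
    refine mem_filter.2 ⟨ht, ?_, hk1⟩
    rcases Nat.eq_zero_or_pos k with h | h
    · rw [h]; simpa using hR1
    · have := Nat.find_min hex (m := k - 1) (by omega)
      have e : (((k - 1 : ℕ) : ℝ) + 1) = (k : ℝ) := by
        rw [Nat.cast_sub h]; push_cast; ring
      rw [e] at this
      exact (not_le.1 this).le
  have hpart : ∀ k ∈ range N, ((Sk k).card : ℝ) * m ≤
      |Cf k| * Real.exp (K + Real.log 2) * (X : ℝ) ^ (F lam + ε) := by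
    intro k _
    rcases (Sk k).eq_empty_or_nonempty with he | hne
    · rw [he]; simp only [card_empty, Nat.cast_zero, zero_mul]; positivity
    obtain ⟨t, ht, hmax⟩ := exists_max_image (Sk k) (fun t => t.1 + t.2) hne
    have htS : t ∈ S := (mem_filter.1 ht).1
    obtain ⟨hlow, hup⟩ := (mem_filter.1 ht).2
    obtain ⟨q1, q2, q3, q4, q5, q6⟩ := hS t htS
    set Y : ℕ := t.1 + t.2 with hY
    have hY1 : 1 ≤ Y := by omega
    have hcard := pairs_count (hCf k) hY1 (S := Sk k) (fun t' ht' => by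
      have h1 := (mem_filter.1 ht').1
      obtain ⟨-, h2⟩ := (mem_filter.1 ht').2
      obtain ⟨p1, p2, p3, -⟩ := hS t' h1
      exact ⟨p1, p2, p3, hmax t' ht', h2⟩)
    set u : ℝ := ((k : ℝ) + 1) * η with hu
    have hu0 : 0 < u := by positivity
    have hYr : (1 : ℝ) ≤ Y := by exact_mod_cast hY1
    have hY0 : (0 : ℝ) < Y := by linarith
    have hRt : R t = (rad (t.1 * t.2 * (t.1 + t.2)) : ℝ) := rfl
    have hct : c t = (Y : ℝ) := rfl
    have hR0 : 0 < R t := lt_of_lt_of_le (by positivity) hlow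
    rw [hct] at hlow
    have hlogR : (u - η) * Real.log Y ≤ Real.log (R t) := by
      have h1 := Real.log_le_log (by positivity) hlow
      rw [Real.log_rpow hY0] at h1
      have : u - η = (k : ℝ) * η := by rw [hu]; ring
      rw [this]; exact h1
    have hnum := num hF (μ := Real.log m) (y := Real.log Y) (x := Real.log X) (b := Real.log B)
      (L := Real.log 2) (u := u) h0 hu0 hη0 hη1 (Real.log_nonneg hm1) (Real.log_nonneg hYr)
      (Real.log_nonneg hX1) hlogB hL2
      (by
        rw [← Real.log_mul hm0.ne' hY0.ne', ← Real.log_mul hX0.ne' (by norm_num)]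
        refine Real.log_le_log (by positivity) ?_
        have : (m : ℝ) * (Y : ℝ) ≤ 2 * X := by exact_mod_cast q4
        linarith)
      (fun hl => by
        have h1 := Real.log_le_log (by positivity) (q5 hl)
        rw [← hRt, Real.log_mul hR0.ne' (by positivity), Real.log_rpow hm0,
          Real.log_mul (by positivity) (by positivity), Real.log_rpow hY0] at h1
        linarith)
      (fun hl => by
        have h1 := Real.log_le_log (by positivity) (q6 hl)
        rw [← hRt, Real.log_mul hR0.ne' (by positivity),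
          Real.log_mul (by positivity) (by positivity),
          Real.log_mul (by positivity) (by positivity), Real.log_rpow hX0] at h1
        linarith)
    have hyx : Real.log Y ≤ Real.log X + Real.log 2 := by
      rw [← Real.log_mul hX0.ne' (by norm_num)]
      refine Real.log_le_log hY0 ?_
      have h1 : (m : ℝ) * (Y : ℝ) ≤ 2 * X := by exact_mod_cast q4
      nlinarith
    have hlX : 0 ≤ Real.log X := Real.log_nonneg hX1
    have hexp : (Y : ℝ) ^ (F u + η) * m ≤
        Real.exp (K + Real.log 2) * (X : ℝ) ^ (F lam + ε) := by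
      rw [Real.rpow_def_of_pos hY0, Real.rpow_def_of_pos hX0]
      conv_lhs => rw [← Real.exp_log hm0]
      rw [← Real.exp_add, ← Real.exp_add]
      refine Real.exp_le_exp.2 ?_
      have h5 : (2 + ρ) * η * Real.log X + η * Real.log X ≤ ε * Real.log X := by
        have := mul_le_mul_of_nonneg_right hηε hlX
        linarith
      have h6 : η * Real.log Y ≤ η * Real.log X + Real.log 2 := by
        have := mul_le_mul_of_nonneg_left hyx hη0.le
        nlinarith
      rw [← hρ] at hnum
      rw [hK]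
      linarith
    have hCk : Cf k ≤ |Cf k| := le_abs_self _
    have hYp : 0 ≤ (Y : ℝ) ^ (F u + η) := by positivity
    calc ((Sk k).card : ℝ) * m ≤ (Cf k * (Y : ℝ) ^ (F u + η)) * m :=
          mul_le_mul_of_nonneg_right hcard hm0.le
      _ ≤ (|Cf k| * (Y : ℝ) ^ (F u + η)) * m := by gcongr
      _ = |Cf k| * ((Y : ℝ) ^ (F u + η) * m) := by ring
      _ ≤ |Cf k| * (Real.exp (K + Real.log 2) * (X : ℝ) ^ (F lam + ε)) := by gcongr
      _ = _ := by ring
  rw [le_div_iff₀ hm0]
  have hcard : (S.card : ℝ) ≤ ∑ k ∈ range N, ((Sk k).card : ℝ) := by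
    have h1 := (card_le_card hcov).trans card_biUnion_le
    exact_mod_cast h1
  calc (S.card : ℝ) * m ≤ (∑ k ∈ range N, ((Sk k).card : ℝ)) * m :=
        mul_le_mul_of_nonneg_right hcard hm0.le
    _ = ∑ k ∈ range N, ((Sk k).card : ℝ) * m := by rw [sum_mul]
    _ ≤ ∑ k ∈ range N, |Cf k| * Real.exp (K + Real.log 2) * (X : ℝ) ^ (F lam + ε) :=
        sum_le_sum hpart
    _ = C0 * Real.exp (K + Real.log 2) * (X : ℝ) ^ (F lam + ε) := by
        rw [hC0, sum_mul, sum_mul]
    _ ≤ _ := by
        have : 0 ≤ Real.exp (K + Real.log 2) * (X : ℝ) ^ (F lam + ε) := by positivity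
        nlinarith

end Pool.Agent.W101.Sz
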